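import Mathlib

/-!
# Chebyshev-type trigonometric quadratures: definitions and the arc weight (used for MP_c62d6e_an)
-/

set_option autoImplicit false

namespace Pool.Agent.R467.TrigQuad

open MeasureTheory Set Filter Topology Real

/-- The real trigonometric polynomials of degree at most `n`. -/
def TrigPoly (n : ℕ) : Submodule ℝ (ℝ → ℝ) :=
  Submodule.span ℝ {f | ∃ k : ℕ, k ≤ n ∧ (f = (fun x => cos (k * x)) ∨ f = fun x => sin (k * x))}

/-- A `2π`-periodic weight function. -/
structure IsWeight (W : ℝ → ℝ) : Prop where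
  nonneg : ∀ x, 0 ≤ W x
  periodic : Function.Periodic W (2 * π)
  measurable : Measurable W
  integrable : IntervalIntegrable W volume (-π) π
  pos : 0 < ∫ x in (-π)..π, W x

/-- There is a Chebyshev-type trigonometric quadrature of degree `n` with `N` nodes for `W`. -/
def HasQuad (W : ℝ → ℝ) (n N : ℕ) : Prop :=
  ∃ (θ : Fin N → ℝ) (w : ℝ), ∀ p ∈ TrigPoly n, ∫ x in (-π)..π, p x * W x = w * ∑ i, p (θ i)

/-- The least number of nodes of a Chebyshev-type trigonometric quadrature of degree `n` for `W`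
(`⊤` if there is none). -/
noncomputable def minNodes (W : ℝ → ℝ) (n : ℕ) : ℕ∞ := ⨅ N ∈ {N : ℕ | HasQuad W n N}, (N : ℕ∞)

/-! ### Trigonometric polynomials -/

lemma cos_mem {n k : ℕ} (h : k ≤ n) : (fun x : ℝ => cos (k * x)) ∈ TrigPoly n :=
  Submodule.subset_span ⟨k, h, Or.inl rfl⟩

lemma sin_mem {n k : ℕ} (h : k ≤ n) : (fun x : ℝ => sin (k * x)) ∈ TrigPoly n :=
  Submodule.subset_span ⟨k, h, Or.inr rfl⟩

lemma cosZ_mem {n : ℕ} (z : ℤ) (h : z.natAbs ≤ n) : (fun x : ℝ => cos (z * x)) ∈ TrigPoly n := by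
  have := cos_mem (n := n) (k := z.natAbs) h
  have e : (fun x : ℝ => cos (z * x)) = fun x : ℝ => cos ((z.natAbs : ℕ) * x) := by
    funext x
    have h1 : ((z.natAbs : ℕ) : ℝ) = |(z : ℝ)| := by
      rw [← Int.cast_natCast, Int.natCast_natAbs, Int.cast_abs]
    rw [h1]
    rcases abs_choice (z : ℝ) with h2 | h2 <;> rw [h2]
    rw [neg_mul, cos_neg]
  rwa [e]

lemma sinZ_mem {n : ℕ} (z : ℤ) (h : z.natAbs ≤ n) : (fun x : ℝ => sin (z * x)) ∈ TrigPoly n := by
  have h0 := sin_mem (n := n) (k := z.natAbs) h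
  have h1 : ((z.natAbs : ℕ) : ℝ) = |(z : ℝ)| := by
    rw [← Int.cast_natCast, Int.natCast_natAbs, Int.cast_abs]
  rcases abs_choice (z : ℝ) with h2 | h2
  · have e : (fun x : ℝ => sin (z * x)) = fun x : ℝ => sin ((z.natAbs : ℕ) * x) := by
      funext x; rw [h1, h2]
    rwa [e]
  · have e : (fun x : ℝ => sin (z * x)) = (-1 : ℝ) • fun x : ℝ => sin ((z.natAbs : ℕ) * x) := by
      funext x
      simp only [Pi.smul_apply, smul_eq_mul]
      rw [h1, h2, show -(z : ℝ) * x = -(z * x) by ring, sin_neg]; ring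
    rw [e]
    exact Submodule.smul_mem _ _ h0

lemma mul_mem {a b : ℕ} {p q : ℝ → ℝ} (hp : p ∈ TrigPoly a) (hq : q ∈ TrigPoly b) :
    p * q ∈ TrigPoly (a + b) := by
  have h : TrigPoly a * TrigPoly b ≤ TrigPoly (a + b) := by
    rw [TrigPoly, TrigPoly, Submodule.span_mul_span, Submodule.span_le]
    rintro _ ⟨f, ⟨k, hk, hf⟩, g, ⟨l, hl, hg⟩, rfl⟩
    have n1 : ((k : ℤ) - l).natAbs ≤ a + b := by omega
    have n2 : ((k : ℤ) + l).natAbs ≤ a + b := by omega
    have m1 := cosZ_mem _ n1
    have m2 := cosZ_mem _ n2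
    have m3 := sinZ_mem _ n1
    have m4 := sinZ_mem _ n2
    push_cast at m1 m2 m3 m4
    rcases hf with rfl | rfl <;> rcases hg with rfl | rfl
    · have e : ((fun x : ℝ => cos (k * x)) * fun x : ℝ => cos (l * x)) =
          (1 / 2 : ℝ) • ((fun x : ℝ => cos (((k : ℝ) - l) * x)) +
            fun x : ℝ => cos (((k : ℝ) + l) * x)) := by
        funext x
        simp only [Pi.mul_apply, Pi.smul_apply, Pi.add_apply, smul_eq_mul]
        rw [sub_mul, add_mul, cos_sub, cos_add]; ring
      show _ ∈ TrigPoly (a + b)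
      simp only
      rw [e]
      exact Submodule.smul_mem _ _ (Submodule.add_mem _ m1 m2)
    · have e : ((fun x : ℝ => cos (k * x)) * fun x : ℝ => sin (l * x)) =
          (1 / 2 : ℝ) • ((fun x : ℝ => sin (((k : ℝ) + l) * x)) -
            fun x : ℝ => sin (((k : ℝ) - l) * x)) := by
        funext x
        simp only [Pi.mul_apply, Pi.smul_apply, Pi.sub_apply, smul_eq_mul]
        rw [sub_mul, add_mul, sin_sub, sin_add]; ring
      show _ ∈ TrigPoly (a + b)
      simp only
      rw [e]
      exact Submodule.smul_mem _ _ (Submodule.sub_mem _ m4 m3)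
    · have e : ((fun x : ℝ => sin (k * x)) * fun x : ℝ => cos (l * x)) =
          (1 / 2 : ℝ) • ((fun x : ℝ => sin (((k : ℝ) + l) * x)) +
            fun x : ℝ => sin (((k : ℝ) - l) * x)) := by
        funext x
        simp only [Pi.mul_apply, Pi.smul_apply, Pi.add_apply, smul_eq_mul]
        rw [sub_mul, add_mul, sin_sub, sin_add]; ring
      show _ ∈ TrigPoly (a + b)
      simp only
      rw [e]
      exact Submodule.smul_mem _ _ (Submodule.add_mem _ m4 m3)
    · have e : ((fun x : ℝ => sin (k * x)) * fun x : ℝ => sin (l * x)) =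
          (1 / 2 : ℝ) • ((fun x : ℝ => cos (((k : ℝ) - l) * x)) -
            fun x : ℝ => cos (((k : ℝ) + l) * x)) := by
        funext x
        simp only [Pi.mul_apply, Pi.smul_apply, Pi.sub_apply, smul_eq_mul]
        rw [sub_mul, add_mul, cos_sub, cos_add]; ring
      show _ ∈ TrigPoly (a + b)
      simp only
      rw [e]
      exact Submodule.smul_mem _ _ (Submodule.sub_mem _ m1 m2)
  exact h (Submodule.mul_mem_mul hp hq)

lemma mono {a b : ℕ} (h : a ≤ b) : TrigPoly a ≤ TrigPoly b := by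
  apply Submodule.span_mono
  rintro f ⟨k, hk, hf⟩
  exact ⟨k, hk.trans h, hf⟩

lemma one_mem (n : ℕ) : (1 : ℝ → ℝ) ∈ TrigPoly n := by
  have := cos_mem (n := n) (k := 0) (Nat.zero_le _)
  convert this using 1
  funext x
  simp

lemma const_mem (n : ℕ) (c : ℝ) : (fun _ => c) ∈ TrigPoly n := by
  have := Submodule.smul_mem _ c (one_mem n)
  convert this using 1
  funext x
  simp

lemma pow_mem' {a : ℕ} {p : ℝ → ℝ} (hp : p ∈ TrigPoly a) (m : ℕ) : p ^ m ∈ TrigPoly (m * a) := by
  induction m with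
  | zero => rw [pow_zero]; exact one_mem _
  | succ m ih =>
    rw [pow_succ, Nat.succ_mul]
    exact mul_mem ih hp

lemma shift_mem {n : ℕ} {p : ℝ → ℝ} (hp : p ∈ TrigPoly n) (c : ℝ) :
    (fun x => p (x + c)) ∈ TrigPoly n := by
  rw [TrigPoly] at hp
  induction hp using Submodule.span_induction with
  | mem f hf =>
    obtain ⟨k, hk, rfl | rfl⟩ := hf
    · have e : (fun x : ℝ => cos (k * (x + c))) =
          cos (k * c) • (fun x : ℝ => cos (k * x)) - sin (k * c) • fun x : ℝ => sin (k * x) := by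
        funext x
        simp only [Pi.smul_apply, Pi.sub_apply, smul_eq_mul]
        rw [mul_add, cos_add]; ring
      rw [e]
      exact Submodule.sub_mem _ (Submodule.smul_mem _ _ (cos_mem hk))
        (Submodule.smul_mem _ _ (sin_mem hk))
    · have e : (fun x : ℝ => sin (k * (x + c))) =
          cos (k * c) • (fun x : ℝ => sin (k * x)) + sin (k * c) • fun x : ℝ => cos (k * x) := by
        funext x
        simp only [Pi.smul_apply, Pi.add_apply, smul_eq_mul]
        rw [mul_add, sin_add]; ring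
      rw [e]
      exact Submodule.add_mem _ (Submodule.smul_mem _ _ (sin_mem hk))
        (Submodule.smul_mem _ _ (cos_mem hk))
  | zero => exact Submodule.zero_mem _
  | add f g _ _ hf hg => exact Submodule.add_mem _ hf hg
  | smul a f _ hf => exact Submodule.smul_mem _ a hf

lemma continuous_of_mem {n : ℕ} {p : ℝ → ℝ} (hp : p ∈ TrigPoly n) : Continuous p := by
  rw [TrigPoly] at hp
  induction hp using Submodule.span_induction with
  | mem f hf =>
    obtain ⟨k, hk, rfl | rfl⟩ := hf
    · fun_prop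
    · fun_prop
  | zero => exact continuous_const
  | add f g _ _ hf hg => exact hf.add hg
  | smul a f _ hf => exact hf.const_smul a

lemma periodic_of_mem {n : ℕ} {p : ℝ → ℝ} (hp : p ∈ TrigPoly n) : Function.Periodic p (2 * π) := by
  rw [TrigPoly] at hp
  induction hp using Submodule.span_induction with
  | mem f hf =>
    obtain ⟨k, hk, rfl | rfl⟩ := hf
    · intro x
      simp only
      rw [mul_add, ← cos_add_nat_mul_two_pi (k * x) k]
    · intro x
      simp only
      rw [mul_add, ← sin_add_nat_mul_two_pi (k * x) k]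
  | zero => intro x; rfl
  | add f g _ _ hf hg => exact hf.add hg
  | smul a f _ hf => exact hf.smul a

/-! ### The arc weight -/

/-- the weight of the arc `cos θ > 3 / 4` -/
noncomputable def g (θ : ℝ) : ℝ := |cos (θ / 2)| / (2 * √(1 / 8 - sin (θ / 2) ^ 2))

/-- the parametrisation of the arc -/
noncomputable def f (t : ℝ) : ℝ := 2 * arcsin (√2 / 4 * cos t)

lemma sq_s : (√2 / 4) ^ 2 = (1 / 8 : ℝ) := by
  rw [div_pow, sq_sqrt (by norm_num)]; norm_num

lemma s_pos : (0 : ℝ) < √2 / 4 := by positivity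

lemma s_lt : √2 / 4 < (1 : ℝ) := by
  have : √2 < (2 : ℝ) := by
    rw [sqrt_lt' (by norm_num)]; norm_num
  linarith

lemma scos_bound (t : ℝ) : -1 < √2 / 4 * cos t ∧ √2 / 4 * cos t < 1 := by
  have h1 := abs_cos_le_one t
  have h2 : |√2 / 4 * cos t| < 1 := by
    rw [abs_mul, abs_of_pos s_pos]
    calc √2 / 4 * |cos t| ≤ √2 / 4 * 1 := by gcongr
      _ < 1 := by rw [mul_one]; exact s_lt
  exact abs_lt.mp h2

lemma sin_f (t : ℝ) : sin (f t / 2) = √2 / 4 * cos t := by
  rw [f, mul_div_cancel_left₀ _ (two_ne_zero)]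
  exact sin_arcsin (scos_bound t).1.le (scos_bound t).2.le

lemma cos_f (t : ℝ) : cos (f t / 2) = √(1 - (√2 / 4 * cos t) ^ 2) := by
  rw [f, mul_div_cancel_left₀ _ (two_ne_zero), cos_arcsin]

lemma cos_f_full (t : ℝ) : cos (f t) = 7 / 8 - 1 / 8 * cos (2 * t) := by
  have h1 : cos (f t) = 1 - 2 * sin (f t / 2) ^ 2 := by
    have := cos_two_mul (f t / 2)
    rw [mul_div_cancel₀ _ (two_ne_zero)] at this
    rw [this, cos_sq']; ring
  rw [h1, sin_f, mul_pow, sq_s, cos_two_mul]; ring

lemma f_cont : Continuous f := by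
  unfold f
  exact continuous_const.mul (continuous_arcsin.comp (by fun_prop))

lemma f_deriv (t : ℝ) :
    HasDerivAt f (2 * (1 / √(1 - (√2 / 4 * cos t) ^ 2) * (√2 / 4 * -sin t))) t := by
  unfold f
  have h1 : HasDerivAt (fun t => √2 / 4 * cos t) (√2 / 4 * -sin t) t :=
    (hasDerivAt_cos t).const_mul _
  have h2 := Real.hasDerivAt_arcsin (scos_bound t).1.ne' (scos_bound t).2.ne
  exact (h2.comp t h1).const_mul 2

lemma f_inj : InjOn f (Ioo 0 π) := by
  intro x hx y hy h
  have h1 : sin (f x / 2) = sin (f y / 2) := by rw [h]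
  rw [sin_f, sin_f] at h1
  exact injOn_cos ⟨hx.1.le, hx.2.le⟩ ⟨hy.1.le, hy.2.le⟩ (mul_left_cancel₀ s_pos.ne' h1)

lemma f_image : f '' Ioo 0 π = {θ | θ ∈ Ioo (-π) π ∧ sin (θ / 2) ^ 2 < 1 / 8} := by
  ext θ
  constructor
  · rintro ⟨t, ht, rfl⟩
    refine ⟨⟨?_, ?_⟩, ?_⟩
    · have := neg_pi_div_two_lt_arcsin.mpr (scos_bound t).1
      unfold f; linarith
    · have := arcsin_lt_pi_div_two.mpr (scos_bound t).2
      unfold f; linarith
    · rw [sin_f, mul_pow, sq_s]
      have h1 : 0 < sin t := sin_pos_of_pos_of_lt_pi ht.1 ht.2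
      have h2 := sin_sq_add_cos_sq t
      nlinarith
  · rintro ⟨⟨h1, h2⟩, h3⟩
    have h4 : |sin (θ / 2)| < √2 / 4 := by
      rw [← sq_s] at h3
      exact abs_lt_of_sq_lt_sq h3 s_pos.le
    have h5 : |sin (θ / 2) / (√2 / 4)| < 1 := by
      rw [abs_div, abs_of_pos s_pos, div_lt_one s_pos]; exact h4
    obtain ⟨h6, h7⟩ := abs_lt.mp h5
    refine ⟨arccos (sin (θ / 2) / (√2 / 4)), ⟨?_, ?_⟩, ?_⟩
    · exact arccos_pos.mpr h7
    · exact arccos_lt_pi.mpr h6
    · rw [f, cos_arccos h6.le h7.le, mul_div_cancel₀ _ s_pos.ne', arcsin_sin (by linarith)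
        (by linarith)]
      ring

lemma deriv_mul_g {t : ℝ} (ht : t ∈ Ioo 0 π) :
    |2 * (1 / √(1 - (√2 / 4 * cos t) ^ 2) * (√2 / 4 * -sin t))| * g (f t) = 1 := by
  have hs : 0 < sin t := sin_pos_of_pos_of_lt_pi ht.1 ht.2
  have h1 : 0 < 1 - (√2 / 4 * cos t) ^ 2 := by
    have := scos_bound t
    nlinarith
  have h2 : 0 < √(1 - (√2 / 4 * cos t) ^ 2) := sqrt_pos.mpr h1
  have h3 : (1 / 8 : ℝ) - (√2 / 4 * cos t) ^ 2 = (√2 / 4 * sin t) ^ 2 := by
    rw [mul_pow, mul_pow, sq_s]
    have := sin_sq_add_cos_sq t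
    nlinarith
  have h4 : 0 < √2 / 4 * sin t := mul_pos s_pos hs
  rw [g, sin_f, cos_f, h3, sqrt_sq h4.le, abs_of_pos h2]
  have h5 : 2 * (1 / √(1 - (√2 / 4 * cos t) ^ 2) * (√2 / 4 * -sin t)) =
      -(2 * (1 / √(1 - (√2 / 4 * cos t) ^ 2) * (√2 / 4 * sin t))) := by ring
  rw [h5, abs_neg, abs_of_pos (by positivity)]
  clear h5 h3 h1
  generalize √(1 - (√2 / 4 * cos t) ^ 2) = D at h2 ⊢
  generalize √2 / 4 * sin t = E at h4 ⊢
  field_simp

lemma g_zero {θ : ℝ} (h : ¬ sin (θ / 2) ^ 2 < 1 / 8) : g θ = 0 := by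
  rw [g, sqrt_eq_zero_of_nonpos (by linarith), mul_zero, div_zero]

lemma int_g (h : ℝ → ℝ) : ∫ x in (-π)..π, h x * g x = ∫ t in (0 : ℝ)..π, h (f t) := by
  rw [intervalIntegral.integral_of_le (by linarith [pi_pos]),
    intervalIntegral.integral_of_le pi_pos.le, integral_Ioc_eq_integral_Ioo,
    integral_Ioc_eq_integral_Ioo]
  have h1 : ∫ x in Ioo (-π) π, h x * g x = ∫ x in f '' Ioo 0 π, h x * g x := by
    apply setIntegral_eq_of_subset_of_forall_sdiff_eq_zero measurableSet_Ioo
    · rw [f_image]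
      exact fun x hx => hx.1
    · intro x hx
      have : ¬ sin (x / 2) ^ 2 < 1 / 8 := by
        intro hc
        apply hx.2
        rw [f_image]
        exact ⟨hx.1, hc⟩
      rw [g_zero this, mul_zero]
  rw [h1, integral_image_eq_integral_abs_deriv_smul measurableSet_Ioo
    (fun t _ => (f_deriv t).hasDerivWithinAt) f_inj]
  apply setIntegral_congr_fun measurableSet_Ioo
  intro t ht
  have := deriv_mul_g ht
  simp only [smul_eq_mul]
  calc _ = h (f t) * (|2 * (1 / √(1 - (√2 / 4 * cos t) ^ 2) * (√2 / 4 * -sin t))| * g (f t)) := by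
        ring
    _ = h (f t) := by rw [this, mul_one]

lemma g_integrable : IntervalIntegrable g volume (-π) π := by
  rw [intervalIntegrable_iff_integrableOn_Ioo_of_le (by linarith [pi_pos])]
  have h1 : IntegrableOn g (f '' Ioo 0 π) := by
    rw [integrableOn_image_iff_integrableOn_abs_deriv_smul measurableSet_Ioo
      (fun t _ => (f_deriv t).hasDerivWithinAt) f_inj]
    have h2 : IntegrableOn (fun _ : ℝ => (1 : ℝ)) (Ioo 0 π) := by
      simp
    refine h2.congr_fun (fun t ht => ?_) measurableSet_Ioo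
    exact (deriv_mul_g ht).symm
  have h3 : MeasurableSet (f '' Ioo 0 π) := by
    rw [f_image]
    exact measurableSet_Ioo.inter
      (measurableSet_lt (by fun_prop : Measurable fun θ : ℝ => sin (θ / 2) ^ 2) measurable_const)
  have h4 : f '' Ioo 0 π ⊆ Ioo (-π) π := by
    rw [f_image]; exact fun x hx => hx.1
  refine h1.of_forall_sdiff_eq_zero measurableSet_Ioo ?_
  intro x hx
  apply g_zero
  intro hc
  apply hx.2
  rw [f_image]
  exact ⟨hx.1, hc⟩

/-! ### Quadrature for the arc weight -/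

/-- the span of `cos (2 j t)`, `j ≤ n` -/
def EvenPoly (n : ℕ) : Submodule ℝ (ℝ → ℝ) :=
  Submodule.span ℝ {h | ∃ j : ℕ, j ≤ n ∧ h = fun t => cos (j * (2 * t))}

lemma even_mem {n j : ℕ} (h : j ≤ n) : (fun t : ℝ => cos (j * (2 * t))) ∈ EvenPoly n :=
  Submodule.subset_span ⟨j, h, rfl⟩

lemma even_mono {a b : ℕ} (h : a ≤ b) : EvenPoly a ≤ EvenPoly b := by
  apply Submodule.span_mono
  rintro f ⟨k, hk, hf⟩
  exact ⟨k, hk.trans h, hf⟩

lemma even_mul {n : ℕ} {v : ℝ → ℝ} (hv : v ∈ EvenPoly n) :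
    (fun t => (7 / 8 - 1 / 8 * cos (2 * t)) * v t) ∈ EvenPoly (n + 1) := by
  rw [EvenPoly] at hv
  induction hv using Submodule.span_induction with
  | mem f hf =>
    obtain ⟨j, hj, rfl⟩ := hf
    rcases j with _ | j
    · have e : (fun t : ℝ => (7 / 8 - 1 / 8 * cos (2 * t)) * cos ((0 : ℕ) * (2 * t))) =
          (7 / 8 : ℝ) • (fun t : ℝ => cos ((0 : ℕ) * (2 * t))) -
            (1 / 8 : ℝ) • fun t : ℝ => cos ((1 : ℕ) * (2 * t)) := by
        funext t
        simp only [Pi.smul_apply, Pi.sub_apply, smul_eq_mul]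
        simp
      rw [e]
      exact Submodule.sub_mem _ (Submodule.smul_mem _ _ (even_mem (by omega)))
        (Submodule.smul_mem _ _ (even_mem (by omega)))
    · have e : (fun t : ℝ => (7 / 8 - 1 / 8 * cos (2 * t)) * cos ((j + 1 : ℕ) * (2 * t))) =
          (7 / 8 : ℝ) • (fun t : ℝ => cos ((j + 1 : ℕ) * (2 * t))) -
            (1 / 16 : ℝ) • ((fun t : ℝ => cos ((j + 2 : ℕ) * (2 * t))) +
              fun t : ℝ => cos ((j : ℕ) * (2 * t))) := by
        funext t
        simp only [Pi.smul_apply, Pi.sub_apply, Pi.add_apply, smul_eq_mul]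
        have h1 : ((j + 2 : ℕ) : ℝ) * (2 * t) = ((j + 1 : ℕ) : ℝ) * (2 * t) + 2 * t := by
          push_cast; ring
        have h2 : ((j : ℕ) : ℝ) * (2 * t) = ((j + 1 : ℕ) : ℝ) * (2 * t) - 2 * t := by
          push_cast; ring
        rw [h1, h2, cos_add, cos_sub]; ring
      rw [e]
      exact Submodule.sub_mem _ (Submodule.smul_mem _ _ (even_mem (by omega)))
        (Submodule.smul_mem _ _ (Submodule.add_mem _ (even_mem (by omega)) (even_mem (by omega))))
  | zero =>
    have e : (fun t : ℝ => (7 / 8 - 1 / 8 * cos (2 * t)) * (0 : ℝ → ℝ) t) = 0 := by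
      funext t; simp
    rw [e]; exact Submodule.zero_mem _
  | add f g _ _ hf hg =>
    have e : (fun t : ℝ => (7 / 8 - 1 / 8 * cos (2 * t)) * (f + g) t) =
        (fun t : ℝ => (7 / 8 - 1 / 8 * cos (2 * t)) * f t) +
          fun t : ℝ => (7 / 8 - 1 / 8 * cos (2 * t)) * g t := by
      funext t; simp only [Pi.add_apply]; ring
    rw [e]; exact Submodule.add_mem _ hf hg
  | smul a f _ hf =>
    have e : (fun t : ℝ => (7 / 8 - 1 / 8 * cos (2 * t)) * (a • f) t) =
        a • fun t : ℝ => (7 / 8 - 1 / 8 * cos (2 * t)) * f t := by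
      funext t; simp only [Pi.smul_apply, smul_eq_mul]; ring
    rw [e]; exact Submodule.smul_mem _ _ hf

lemma cosf_mem (k : ℕ) : (fun t => cos (k * f t)) ∈ EvenPoly k ∧
    (fun t => cos ((k + 1 : ℕ) * f t)) ∈ EvenPoly (k + 1) := by
  induction k with
  | zero =>
    have h0 : (fun t => cos ((0 : ℕ) * f t)) ∈ EvenPoly 0 := by
      have := even_mem (n := 0) (j := 0) le_rfl
      convert this using 2
      simp
    refine ⟨h0, ?_⟩
    have h1 := even_mul h0
    convert h1 using 2 with t
    simp [cos_f_full]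
  | succ k ih =>
    refine ⟨ih.2, ?_⟩
    have h1 := even_mul ih.2
    have e : (fun t => cos ((k + 1 + 1 : ℕ) * f t)) =
        (2 : ℝ) • (fun t => (7 / 8 - 1 / 8 * cos (2 * t)) * cos ((k + 1 : ℕ) * f t)) -
          fun t => cos (k * f t) := by
      funext t
      simp only [Pi.smul_apply, Pi.sub_apply, smul_eq_mul]
      rw [← cos_f_full]
      have h2 : ((k + 1 + 1 : ℕ) : ℝ) * f t = ((k + 1 : ℕ) : ℝ) * f t + f t := by
        push_cast; ring
      have h3 : (k : ℝ) * f t = ((k + 1 : ℕ) : ℝ) * f t - f t := by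
        push_cast; ring
      rw [h2, h3, cos_add, cos_sub]; ring
    rw [e]
    exact Submodule.sub_mem _ (Submodule.smul_mem _ _ h1) (even_mono (by omega) ih.1)

/-- the nodes -/
noncomputable def node (n i : ℕ) : ℝ := (2 * i + 1) * π / (2 * (n + 1))

lemma node_reflect {n i : ℕ} (hi : i < n + 1) : node n (n + 1 - 1 - i) = π - node n i := by
  have h1 : ((n + 1 - 1 - i : ℕ) : ℝ) = n - i := by
    rw [Nat.add_sub_cancel, Nat.cast_sub (by omega)]
  have h2 : (n : ℝ) + 1 ≠ 0 := by positivity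
  rw [node, node, h1]
  field_simp
  ring

lemma sum_cos (x : ℝ) (M : ℕ) :
    (∑ i ∈ Finset.range M, cos ((2 * i + 1) * x)) * (2 * sin x) = sin (2 * M * x) := by
  induction M with
  | zero => simp
  | succ M ih =>
    rw [Finset.sum_range_succ, add_mul, ih]
    have h1 : 2 * ((M + 1 : ℕ) : ℝ) * x = (2 * M + 1) * x + x := by push_cast; ring
    have h2 : 2 * (M : ℝ) * x = (2 * M + 1) * x - x := by ring
    rw [h1, h2, sin_add, sin_sub]; ring

lemma quad_even {n : ℕ} {v : ℝ → ℝ} (hv : v ∈ EvenPoly n) : Continuous v ∧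
    ∫ t in (0 : ℝ)..π, v t = π / (n + 1) * ∑ i ∈ Finset.range (n + 1), v (node n i) := by
  have hn : (n : ℝ) + 1 ≠ 0 := by positivity
  rw [EvenPoly] at hv
  induction hv using Submodule.span_induction with
  | mem f hf =>
    obtain ⟨j, hj, rfl⟩ := hf
    refine ⟨by fun_prop, ?_⟩
    rcases Nat.eq_zero_or_pos j with rfl | hj0
    · simp
      field_simp
    · have hjr : (0 : ℝ) < j := by exact_mod_cast hj0
      have h1 : ∫ t in (0 : ℝ)..π, cos (j * (2 * t)) = 0 := by
        have h2 : ∀ t ∈ uIcc (0 : ℝ) π,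
            HasDerivAt (fun t => sin (j * (2 * t)) / (j * 2)) (cos (j * (2 * t))) t := by
          intro t _
          have h3 : HasDerivAt (fun t : ℝ => (j : ℝ) * (2 * t)) (j * (2 * 1)) t :=
            ((hasDerivAt_id t).const_mul 2).const_mul _
          have h4 := (h3.sin).div_const ((j : ℝ) * 2)
          have h5 : cos ((j : ℝ) * (2 * t)) * (j * (2 * 1)) / (j * 2) = cos (j * (2 * t)) := by
            rw [mul_one, mul_div_assoc, div_self (by positivity), mul_one]
          rw [h5] at h4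
          exact h4
        rw [intervalIntegral.integral_eq_sub_of_hasDerivAt h2
          (Continuous.intervalIntegrable (by fun_prop) _ _)]
        have h5 : (j : ℝ) * (2 * π) = (2 * j : ℕ) * π := by push_cast; ring
        rw [h5, sin_nat_mul_pi]
        simp
      rw [h1]
      have hx : 0 < sin (j * π / (n + 1)) := by
        apply sin_pos_of_pos_of_lt_pi (by positivity)
        rw [div_lt_iff₀ (by positivity), mul_comm]
        have : (j : ℝ) < n + 1 := by exact_mod_cast Nat.lt_succ_of_le hj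
        exact mul_lt_mul_of_pos_left this pi_pos
      have h6 := sum_cos (j * π / (n + 1)) (n + 1)
      have h7 : 2 * ((n + 1 : ℕ) : ℝ) * (j * π / (n + 1)) = (2 * j : ℕ) * π := by
        push_cast
        field_simp
      rw [h7, sin_nat_mul_pi] at h6
      have h8 : ∑ i ∈ Finset.range (n + 1), cos ((2 * (i : ℝ) + 1) * (j * π / (n + 1))) = 0 := by
        rcases mul_eq_zero.mp h6 with h | h
        · exact h
        · linarith
      have h9 : ∑ i ∈ Finset.range (n + 1), cos (j * (2 * node n i)) =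
          ∑ i ∈ Finset.range (n + 1), cos ((2 * (i : ℝ) + 1) * (j * π / (n + 1))) := by
        apply Finset.sum_congr rfl
        intro i _
        congr 1
        rw [node]
        field_simp
      rw [h9, h8, mul_zero]
  | zero => exact ⟨continuous_const, by simp⟩
  | add f g _ _ hf hg =>
    refine ⟨hf.1.add hg.1, ?_⟩
    simp only [Pi.add_apply]
    rw [intervalIntegral.integral_add (hf.1.intervalIntegrable _ _) (hg.1.intervalIntegrable _ _),
      hf.2, hg.2, Finset.sum_add_distrib]
    ring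
  | smul a f _ hf =>
    refine ⟨hf.1.const_smul a, ?_⟩
    simp only [Pi.smul_apply, smul_eq_mul]
    rw [intervalIntegral.integral_const_mul, hf.2, ← Finset.mul_sum]
    ring

lemma f_reflect (t : ℝ) : f (π - t) = - f t := by
  rw [f, f, cos_pi_sub, mul_neg, arcsin_neg]; ring

lemma quad_f {n : ℕ} {p : ℝ → ℝ} (hp : p ∈ TrigPoly n) :
    ∫ t in (0 : ℝ)..π, p (f t) = π / (n + 1) * ∑ i ∈ Finset.range (n + 1), p (f (node n i)) := by
  have hcont : ∀ q ∈ TrigPoly n, IntervalIntegrable (fun t => q (f t)) volume 0 π := fun q hq =>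
    ((continuous_of_mem hq).comp f_cont).intervalIntegrable _ _
  rw [TrigPoly] at hp
  induction hp using Submodule.span_induction with
  | mem h hh =>
    obtain ⟨k, hk, rfl | rfl⟩ := hh
    · exact (quad_even (even_mono hk (cosf_mem k).1)).2
    · have h1 : ∫ t in (0 : ℝ)..π, sin (k * f t) = 0 := by
        have h2 : ∫ t in (0 : ℝ)..π, sin (k * f (π - t)) = ∫ t in (0 : ℝ)..π, sin (k * f t) := by
          rw [intervalIntegral.integral_comp_sub_left (fun t => sin (k * f t)) π]
          simp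
        have h3 : ∫ t in (0 : ℝ)..π, sin (k * f (π - t)) = - ∫ t in (0 : ℝ)..π, sin (k * f t) := by
          rw [← intervalIntegral.integral_neg]
          congr 1
          funext t
          rw [f_reflect, mul_neg, sin_neg]
        linarith
      have h4 : ∑ i ∈ Finset.range (n + 1), sin (k * f (node n i)) = 0 := by
        have h5 := Finset.sum_range_reflect (fun i => sin (k * f (node n i))) (n + 1)
        have h6 : ∑ i ∈ Finset.range (n + 1), sin (k * f (node n (n + 1 - 1 - i))) =
            - ∑ i ∈ Finset.range (n + 1), sin (k * f (node n i)) := by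
          rw [← Finset.sum_neg_distrib]
          apply Finset.sum_congr rfl
          intro i hi
          rw [node_reflect (Finset.mem_range.mp hi), f_reflect, mul_neg, sin_neg]
        linarith
      rw [h1, h4, mul_zero]
  | zero => simp
  | add q r hq hr h1 h2 =>
    simp only [Pi.add_apply]
    rw [intervalIntegral.integral_add (hcont q hq) (hcont r hr), h1, h2, Finset.sum_add_distrib]
    ring
  | smul a q hq h1 =>
    simp only [Pi.smul_apply, smul_eq_mul]
    rw [intervalIntegral.integral_const_mul, h1, ← Finset.mul_sum]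
    ring

lemma g_periodic : Function.Periodic g (2 * π) := by
  intro x
  have h : (x + 2 * π) / 2 = x / 2 + π := by ring
  rw [g, g, h, cos_add_pi, sin_add_pi, abs_neg, neg_sq]

lemma g_nonneg (x : ℝ) : 0 ≤ g x := by
  unfold g; positivity

lemma g_measurable : Measurable g := by
  unfold g
  fun_prop

lemma g_integrable' (a b : ℝ) : IntervalIntegrable g volume a b := by
  refine g_periodic.intervalIntegrable two_pi_pos.ne' (t := -π) ?_ a b
  have : -π + 2 * π = π := by ring
  rw [this]
  exact g_integrable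

lemma shift_integral {F : ℝ → ℝ} (hF : Function.Periodic F (2 * π)) (c : ℝ) :
    ∫ x in (-π)..π, F x = ∫ x in (-π)..π, F (x + c) := by
  rw [intervalIntegral.integral_comp_add_right]
  have := hF.intervalIntegral_add_eq (-π) (-π + c)
  have e1 : -π + 2 * π = π := by ring
  have e2 : -π + c + 2 * π = π + c := by ring
  rw [e1, e2] at this
  exact this

/-- the shifted arc weights -/
noncomputable def Wt (a c : ℝ) (x : ℝ) : ℝ := a * g (x + c)

lemma Wt_periodic (a c : ℝ) : Function.Periodic (Wt a c) (2 * π) := by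
  intro x
  rw [Wt, Wt, show x + 2 * π + c = x + c + 2 * π by ring, g_periodic]

lemma Wt_integral {a c : ℝ} {n : ℕ} {p : ℝ → ℝ} (hp : p ∈ TrigPoly n) :
    ∫ x in (-π)..π, p x * Wt a c x =
      a * (π / (n + 1)) * ∑ i ∈ Finset.range (n + 1), p (f (node n i) - c) := by
  have h1 : Function.Periodic (fun x => p x * Wt a c x) (2 * π) :=
    (periodic_of_mem hp).mul (Wt_periodic a c)
  rw [shift_integral h1 (-c)]
  have h2 : ∀ x, p (x + -c) * Wt a c (x + -c) = a * (p (x + -c) * g x) := by
    intro x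
    rw [Wt, show x + -c + c = x by ring]; ring
  simp only [h2]
  rw [intervalIntegral.integral_const_mul, int_g (fun x => p (x + -c)),
    quad_f (shift_mem hp (-c)), mul_assoc]
  rfl

lemma Wt_hasQuad (a c : ℝ) (n : ℕ) : HasQuad (Wt a c) n (n + 1) := by
  refine ⟨fun i => f (node n i) - c, a * (π / (n + 1)), fun p hp => ?_⟩
  rw [Wt_integral hp, ← Fin.sum_univ_eq_sum_range (fun i => p (f (node n i) - c))]

lemma Wt_total (a c : ℝ) : ∫ x in (-π)..π, Wt a c x = a * π := by
  have := Wt_integral (a := a) (c := c) (one_mem 0)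
  simpa using this

lemma Wt_isWeight {a : ℝ} (ha : 0 < a) (c : ℝ) : IsWeight (Wt a c) where
  nonneg x := mul_nonneg ha.le (g_nonneg _)
  periodic := Wt_periodic a c
  measurable := by
    unfold Wt
    exact (g_measurable.comp (measurable_id.add_const c)).const_mul a
  integrable := by
    have h := ((g_integrable' (-π + c) (π + c)).comp_add_right c).const_mul a
    show IntervalIntegrable (fun x => a * g (x + c)) volume (-π) π
    simpa using h
  pos := by
    rw [Wt_total]
    positivity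

end Pool.Agent.R467.TrigQuad
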